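import Pool.Agent.W488.Sp.Ft

/-!
Completeness of the exponentials.
-/

set_option autoImplicit false

open MeasureTheory
open scoped ENNReal Real

namespace Pool.Agent.W488.Sp

variable {m : ℕ} {P : Type} [Fintype P] [Nonempty P] [MeasurableSpace P]
  [DiscreteMeasurableSpace P]
variable {n : Fin m → ℤ} {u f : P → Fin m → ℤ}

/-- reduction modulo `1` -/
noncomputable def tor (n : Fin m → ℤ) (u f : P → Fin m → ℤ) (ω : ℕ → P) :
    UnitAddTorus (Fin m) :=
  fun j => ((YY n u f ω j : ℝ) : UnitAddCircle)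

theorem Hyp.measurable_tor (h : Hyp n u f) : Measurable (tor n u f : (ℕ → P) → _) := by
  unfold tor
  rw [measurable_pi_iff]
  intro j
  have h1 : Measurable (fun x : ℝ => (x : UnitAddCircle)) :=
    (AddCircle.continuous_mk' 1).measurable
  exact h1.comp ((measurable_pi_apply j).comp h.measurable_YY)

theorem mFourier_tor (k : Fin m → ℤ) (ω : ℕ → P) :
    UnitAddTorus.mFourier k (tor n u f ω) = ee (∑ j, (k j : ℝ) * YY n u f ω j) := by
  unfold UnitAddTorus.mFourier tor ee
  simp only [ContinuousMap.coe_mk]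
  push_cast
  rw [Finset.mul_sum, Complex.exp_sum]
  apply Finset.prod_congr rfl
  intro j _
  rw [fourier_coe_apply]
  congr 1
  push_cast
  ring

/-- the good set -/
def GG (u f : P → Fin m → ℤ) : Set (ℕ → P) := {ω | ∀ N, ∃ k, N ≤ k ∧ pat u f ω k}

theorem measurableSet_GG : MeasurableSet (GG u f : Set (ℕ → P)) := by
  have : (GG u f : Set (ℕ → P)) = ⋂ N : ℕ, ⋃ k : ℕ, ({ω : ℕ → P | N ≤ k} ∩ {ω | pat u f ω k}) := by
    ext ω
    simp [GG]
  rw [this]
  exact MeasurableSet.iInter fun N => MeasurableSet.iUnion fun k =>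
    (MeasurableSet.const _).inter (measurableSet_pat k)

theorem Hyp.tor_inj (h : Hyp n u f) {ω ω' : ℕ → P} (hω : ω ∈ GG u f)
    (he : tor n u f ω = tor n u f ω') : ω = ω' := by
  apply h.inj ω ω' hω
  intro j
  have h1 : ((YY n u f ω j : ℝ) : UnitAddCircle) = ((YY n u f ω' j : ℝ) : UnitAddCircle) :=
    congrFun he j
  have h2 : ((YY n u f ω j - YY n u f ω' j : ℝ) : UnitAddCircle) = 0 := by
    rw [AddCircle.coe_sub, h1, sub_self]
  obtain ⟨z, hz⟩ := (AddCircle.coe_eq_zero_iff (1 : ℝ)).mp h2
  exact ⟨z, by rw [← hz]; simp⟩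

theorem span_dense (lam : Measure (UnitAddTorus (Fin m))) [IsFiniteMeasure lam] :
    (Submodule.span ℂ (Set.range (fun k : Fin m → ℤ =>
      ContinuousMap.toLp (E := ℂ) 2 lam ℂ (UnitAddTorus.mFourier k)))).topologicalClosure = ⊤ := by
  have hp : (2 : ℝ≥0∞) ≠ ∞ := by simp
  simpa only [Submodule.map_span, ContinuousLinearMap.coe_coe, ← Set.range_comp,
    Function.comp_def] using
    (ContinuousMap.toLp_denseRange ℂ lam ℂ hp).topologicalClosure_map_submodule
      UnitAddTorus.span_mFourier_closure_eq_top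

theorem zero_of_coeff (lam : Measure (UnitAddTorus (Fin m))) [IsFiniteMeasure lam]
    (H : UnitAddTorus (Fin m) → ℂ) (hH : MemLp H 2 lam)
    (horth : ∀ k : Fin m → ℤ, ∫ t, (starRingEnd ℂ) (UnitAddTorus.mFourier k t) * H t ∂lam = 0) :
    H =ᵐ[lam] 0 := by
  set x : Lp ℂ 2 lam := hH.toLp H with hx
  have h1 : ∀ k : Fin m → ℤ,
      inner ℂ (ContinuousMap.toLp (E := ℂ) 2 lam ℂ (UnitAddTorus.mFourier k)) x = 0 := by
    intro k
    rw [MeasureTheory.L2.inner_def]
    rw [← horth k]
    apply integral_congr_ae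
    filter_upwards [ContinuousMap.coeFn_toLp (p := 2) (𝕜 := ℂ) lam (UnitAddTorus.mFourier k),
      hH.coeFn_toLp] with t ht1 ht2
    rw [ht1, hx, ht2, RCLike.inner_apply, mul_comm]
  have h2 : x = 0 := by
    have h3 : x ∈ (Submodule.span ℂ (Set.range (fun k : Fin m → ℤ =>
      ContinuousMap.toLp (E := ℂ) 2 lam ℂ (UnitAddTorus.mFourier k))))ᗮ := by
      rw [Submodule.mem_orthogonal]
      intro y hy
      induction hy using Submodule.span_induction with
      | mem y hy =>
        obtain ⟨k, rfl⟩ := hy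
        exact h1 k
      | zero => simp
      | add a b _ _ ha hb => rw [inner_add_left, ha, hb, add_zero]
      | smul c a _ ha => rw [inner_smul_left, ha, mul_zero]
    rw [← Submodule.orthogonal_closure, span_dense, Submodule.top_orthogonal_eq_bot] at h3
    simpa using h3
  have h4 : H =ᵐ[lam] x := hH.coeFn_toLp.symm
  rw [h2] at h4
  exact h4.trans (Lp.coeFn_zero ℂ 2 lam)

theorem Hyp.complete (h : Hyp n u f) (g : (ℕ → P) → ℂ) (hg : MemLp g 2 (nu P))
    (horth : ∀ k : Fin m → ℤ, ∫ ω, g ω * ee (-(∑ j, (k j : ℝ) * YY n u f ω j)) ∂(nu P) = 0) :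
    g =ᵐ[nu P] 0 := by
  -- a measurable version
  set g' := hg.1.mk g with hg'
  have hgg : g =ᵐ[nu P] g' := hg.1.ae_eq_mk
  have hg'm : Measurable g' := hg.1.stronglyMeasurable_mk.measurable
  haveI : StandardBorelSpace (ℕ → P) := inferInstance
  haveI : StandardBorelSpace (GG u f : Set (ℕ → P)) :=
    (measurableSet_GG (u := u) (f := f)).standardBorel
  have hemb : MeasurableEmbedding (fun x : (GG u f : Set (ℕ → P)) => tor n u f x.1) := by
    apply Measurable.measurableEmbedding (h.measurable_tor.comp measurable_subtype_coe)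
    intro x y hxy
    exact Subtype.ext (h.tor_inj x.2 hxy)
  obtain ⟨H, hHm, hH⟩ := hemb.exists_measurable_extend (g := fun x : (GG u f : Set (ℕ → P)) => g' x.1)
    (hg'm.comp measurable_subtype_coe) (fun _ => ⟨0⟩)
  have hHe : ∀ ω ∈ (GG u f : Set (ℕ → P)), H (tor n u f ω) = g' ω := fun ω hω =>
    congrFun hH ⟨ω, hω⟩
  have hHae : (fun ω => H (tor n u f ω)) =ᵐ[nu P] g := by
    filter_upwards [h.ae_good, hgg] with ω hω hω2
    rw [hHe ω hω, hω2]
  set lam := (nu P).map (tor n u f) with hlam
  haveI : IsProbabilityMeasure lam := Measure.isProbabilityMeasure_map h.measurable_tor.aemeasurable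
  have hHL : MemLp H 2 lam := by
    rw [hlam, memLp_map_measure_iff hHm.aestronglyMeasurable h.measurable_tor.aemeasurable]
    exact (memLp_congr_ae hHae).mpr hg
  have hzero : H =ᵐ[lam] 0 := by
    apply zero_of_coeff lam H hHL
    intro k
    rw [hlam, integral_map h.measurable_tor.aemeasurable]
    · rw [← horth k]
      apply integral_congr_ae
      filter_upwards [hHae] with ω hω
      rw [hω, mul_comm, mFourier_tor]
      congr 1
      unfold ee
      rw [← Complex.exp_conj]
      congr 1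
      simp only [map_mul, Complex.conj_I, Complex.conj_ofReal, map_ofNat]
      push_cast
      ring
    · exact ((Complex.continuous_conj.measurable.comp
        (UnitAddTorus.mFourier k).continuous.measurable).mul hHm).aestronglyMeasurable
  have h5 : (fun ω => H (tor n u f ω)) =ᵐ[nu P] 0 :=
    ae_of_ae_map h.measurable_tor.aemeasurable hzero
  exact hHae.symm.trans h5

end Pool.Agent.W488.Sp
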