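import Pool.Agent.W754.SpDefs
import Pool.Agent.W488.Sp.Compl

/-!
The self-affine measure of `R (x, y) = (D y, x)` is spectral.
-/

set_option autoImplicit false

open MeasureTheory Matrix
open scoped ENNReal Real

namespace Pool.Agent.W488.Sp

open Pool.Agent.W754.Sp

variable {m : ℕ} {P : Type} [Fintype P] [Nonempty P] [MeasurableSpace P]
  [DiscreteMeasurableSpace P]
variable {n : Fin m → ℤ} {u f : P → Fin m → ℤ}

/-- the coding map -/
noncomputable def XX (n : Fin m → ℤ) (u f : P → Fin m → ℤ) (ω : ℕ → P) : Fin (m + m) → ℝ :=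
  Fin.append (fun j => (f (ω 0) j : ℝ) + YY n u f (sh ω) j) (YY n u f ω)

theorem XX_castAdd (ω : ℕ → P) (j : Fin m) :
    XX n u f ω (Fin.castAdd m j) = (f (ω 0) j : ℝ) + YY n u f (sh ω) j := by
  unfold XX
  rw [Fin.append_left]

theorem XX_natAdd (ω : ℕ → P) (j : Fin m) :
    XX n u f ω (Fin.natAdd m j) = YY n u f ω j := by
  unfold XX
  rw [Fin.append_right]

theorem Hyp.measurable_XX (h : Hyp n u f) : Measurable (XX n u f : (ℕ → P) → _) := by
  rw [measurable_pi_iff]
  intro i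
  refine Fin.addCases (fun j => ?_) (fun j => ?_) i
  · simp only [XX_castAdd]
    have h1 : Measurable (fun ω : ℕ → P => (f (ω 0) j : ℝ)) :=
      (Measurable.of_discrete (f := fun p : P => (f p j : ℝ))).comp (measurable_pi_apply 0)
    exact h1.add ((measurable_pi_apply j).comp (h.measurable_YY.comp measurable_sh))
  · simp only [XX_natAdd]
    exact (measurable_pi_apply j).comp h.measurable_YY

/-- the inverse of `R` -/
noncomputable def RI (n : Fin m → ℤ) : Matrix (Fin (m + m)) (Fin (m + m)) ℝ :=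
  Matrix.reindex finSumFinEquiv finSumFinEquiv
    (Matrix.fromBlocks 0 1 (Matrix.diagonal fun j => (n j : ℝ)⁻¹) 0)

theorem RR_map (n : Fin m → ℤ) : (RR n).map (Int.cast : ℤ → ℝ) =
    Matrix.reindex finSumFinEquiv finSumFinEquiv
      (Matrix.fromBlocks 0 (Matrix.diagonal fun j => (n j : ℝ)) 1 0) := by
  unfold RR
  rw [Matrix.reindex_apply, Matrix.reindex_apply, ← Matrix.submatrix_map, Matrix.fromBlocks_map]
  congr 2
  · ext i j; simp
  · rw [Matrix.diagonal_map (by simp)]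
  · ext i j; simp [Matrix.one_apply]
  · ext i j; simp

theorem RR_inv (hn : ∀ j, (n j : ℝ) ≠ 0) : ((RR n).map (Int.cast : ℤ → ℝ))⁻¹ = RI n := by
  apply Matrix.inv_eq_right_inv
  rw [RR_map]
  unfold RI
  rw [Matrix.reindex_apply, Matrix.reindex_apply, Matrix.submatrix_mul_equiv,
    Matrix.fromBlocks_multiply]
  simp only [Matrix.zero_mul, Matrix.mul_zero, Matrix.diagonal_mul_diagonal, Matrix.one_mul,
    add_zero, zero_add, mul_one]
  have : (fun j => (n j : ℝ) * (n j : ℝ)⁻¹) = fun _ => 1 := by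
    funext j
    exact mul_inv_cancel₀ (hn j)
  rw [this]
  have h1 : (Matrix.diagonal fun _ : Fin m => (1 : ℝ)) = 1 := Matrix.diagonal_one
  rw [h1, Matrix.fromBlocks_one, Matrix.submatrix_one_equiv]

theorem RI_mulVec_left (v : Fin (m + m) → ℝ) (j : Fin m) :
    (RI n *ᵥ v) (Fin.castAdd m j) = v (Fin.natAdd m j) := by
  unfold RI
  rw [Matrix.reindex_apply, Matrix.submatrix_mulVec_equiv]
  simp [Matrix.fromBlocks_mulVec]

theorem RI_mulVec_right (v : Fin (m + m) → ℝ) (j : Fin m) :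
    (RI n *ᵥ v) (Fin.natAdd m j) = (n j : ℝ)⁻¹ * v (Fin.castAdd m j) := by
  unfold RI
  rw [Matrix.reindex_apply, Matrix.submatrix_mulVec_equiv, Matrix.fromBlocks_mulVec,
    Function.comp_apply, finSumFinEquiv_symm_apply_natAdd, Sum.elim_inr, Pi.add_apply,
    Matrix.mulVec_diagonal, Matrix.zero_mulVec, Pi.zero_apply, add_zero]
  simp

theorem Hyp.XX_cns (h : Hyp n u f) (p : P) (ω : ℕ → P) :
    XX n u f (cns p ω) = ((RR n).map (Int.cast : ℤ → ℝ))⁻¹ *ᵥ
      (XX n u f ω + fun i => (dg u f p i : ℝ)) := by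
  have hn : ∀ j, (n j : ℝ) ≠ 0 := fun j => by have := h.n_pos j; linarith
  rw [RR_inv hn]
  funext i
  refine Fin.addCases (fun j => ?_) (fun j => ?_) i
  · rw [XX_castAdd, RI_mulVec_left, Pi.add_apply, XX_natAdd]
    unfold dg
    rw [Fin.append_right, cns_zero, sh_cns, add_comm]
  · rw [XX_natAdd, RI_mulVec_right, Pi.add_apply, XX_castAdd]
    unfold dg
    rw [Fin.append_left]
    have h1 := h.YY_cns p (ω 0) (sh ω) j
    rw [cns_sh] at h1
    rw [h1]
    push_cast
    ring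

omit [Nonempty P] [MeasurableSpace P] [DiscreteMeasurableSpace P] in
theorem sum_BB (huinj : Function.Injective u) {M : Type*} [AddCommMonoid M]
    (F : (Fin (m + m) → ℤ) → M) : ∑ b ∈ BB u f, F b = ∑ p : P, F (dg u f p) := by
  unfold BB
  rw [Finset.sum_image]
  intro p _ q _ hpq
  apply huinj
  funext j
  have := congrFun hpq (Fin.castAdd m j)
  unfold dg at this
  rwa [Fin.append_left, Fin.append_left] at this

omit [Nonempty P] [MeasurableSpace P] [DiscreteMeasurableSpace P] in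
theorem card_BB (huinj : Function.Injective u) : (BB u f).card = Fintype.card P := by
  unfold BB
  rw [Finset.card_image_of_injective, Finset.card_univ]
  intro p q hpq
  apply huinj
  funext j
  have := congrFun hpq (Fin.castAdd m j)
  unfold dg at this
  rwa [Fin.append_left, Fin.append_left] at this

theorem Hyp.selfaffine (h : Hyp n u f) (huinj : Function.Injective u) :
    (nu P).map (XX n u f) = ((BB u f).card : ℝ≥0∞)⁻¹ • ∑ b ∈ BB u f,
      ((nu P).map (XX n u f)).map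
        (fun x => ((RR n).map (Int.cast : ℤ → ℝ))⁻¹ *ᵥ (x + fun i => (b i : ℝ))) := by
  rw [sum_BB huinj, card_BB huinj]
  conv_lhs => rw [nu_eq]
  rw [Measure.map_smul]
  congr 1
  have h1 : ((∑ p : P, (nu P).map (cns p))).map (XX n u f) =
      ∑ p : P, ((nu P).map (cns p)).map (XX n u f) := by
    rw [← Measure.mapₗ_apply_of_measurable h.measurable_XX, map_sum]
    simp only [Measure.mapₗ_apply_of_measurable h.measurable_XX]
  rw [h1]
  apply Finset.sum_congr rfl
  intro p _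
  have hm : Measurable (fun x : Fin (m + m) → ℝ =>
      ((RR n).map (Int.cast : ℤ → ℝ))⁻¹ *ᵥ (x + fun i => (dg u f p i : ℝ))) := by
    apply Continuous.measurable
    exact Continuous.matrix_mulVec continuous_const (continuous_id.add continuous_const)
  rw [Measure.map_map h.measurable_XX (measurable_cns p), Measure.map_map hm h.measurable_XX]
  congr 1
  funext ω
  exact h.XX_cns p ω

/-- the frequency vector `(0, k)` -/
def fq (k : Fin m → ℤ) : Fin (m + m) → ℝ := Fin.append (fun _ => 0) (fun j => (k j : ℝ))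

theorem fq_inj : Function.Injective (fq : (Fin m → ℤ) → _) := by
  intro k k' hk
  funext j
  have := congrFun hk (Fin.natAdd m j)
  unfold fq at this
  rw [Fin.append_right, Fin.append_right] at this
  exact_mod_cast this

theorem sum_fq (k k' : Fin m → ℤ) (ω : ℕ → P) :
    ∑ i, (fq k i - fq k' i) * XX n u f ω i = ∑ j, ((k - k') j : ℝ) * YY n u f ω j := by
  rw [Fin.sum_univ_add]
  unfold fq
  simp only [Fin.append_left, Fin.append_right, sub_self, zero_mul, Finset.sum_const_zero, zero_add,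
    XX_natAdd, Pi.sub_apply]
  push_cast
  rfl

theorem sum_fq1 (k : Fin m → ℤ) (ω : ℕ → P) :
    ∑ i, fq k i * XX n u f ω i = ∑ j, (k j : ℝ) * YY n u f ω j := by
  rw [Fin.sum_univ_add]
  unfold fq
  simp only [Fin.append_left, Fin.append_right, zero_mul, Finset.sum_const_zero, zero_add,
    XX_natAdd]

theorem Hyp.main (h : Hyp n u f) (huinj : Function.Injective u) :
    ∃ μ : Measure (Fin (m+m) → ℝ), IsProbabilityMeasure μ ∧
    μ = ((BB u f).card : ℝ≥0∞)⁻¹ • ∑ b ∈ BB u f, μ.map (fun x => ((RR n).map (Int.cast : ℤ → ℝ))⁻¹ *ᵥ (x + fun i => (b i : ℝ))) ∧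
    (∃ Λ : Set (Fin (m+m) → ℝ),
      (∀ l ∈ Λ, ∀ l' ∈ Λ,
        (l = l' → ∫ x, Complex.exp (2 * π * Complex.I * ((∑ i, (l i - l' i) * x i : ℝ) : ℂ)) ∂μ = 1) ∧
        (l ≠ l' → ∫ x, Complex.exp (2 * π * Complex.I * ((∑ i, (l i - l' i) * x i : ℝ) : ℂ)) ∂μ = 0)) ∧
      (∀ g : (Fin (m+m) → ℝ) → ℂ, MemLp g 2 μ →
        (∀ l ∈ Λ, ∫ x, g x * Complex.exp (-(2 * π * Complex.I * ((∑ i, l i * x i : ℝ) : ℂ))) ∂μ = 0) → g =ᵐ[μ] 0)) := by
  have hX := h.measurable_XX
  haveI : IsProbabilityMeasure ((nu P).map (XX n u f)) :=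
    Measure.isProbabilityMeasure_map hX.aemeasurable
  refine ⟨(nu P).map (XX n u f), this, h.selfaffine huinj, Set.range fq, ?_, ?_⟩
  · rintro _ ⟨k, rfl⟩ _ ⟨k', rfl⟩
    refine ⟨fun hkk => ?_, fun hkk => ?_⟩
    · rw [hkk]
      simp
    · have hk : k - k' ≠ 0 := by
        intro h0
        exact hkk (congrArg fq (sub_eq_zero.mp h0))
      have hmeas : Measurable (fun x : Fin (m + m) → ℝ =>
          Complex.exp (2 * π * Complex.I * ((∑ i, (fq k i - fq k' i) * x i : ℝ) : ℂ))) := by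
        fun_prop
      rw [integral_map hX.aemeasurable hmeas.aestronglyMeasurable]
      simp only [sum_fq]
      exact h.ft_int _ (k - k') hk le_rfl
  · intro g hg horth
    have hg2 : MemLp (fun ω => g (XX n u f ω)) 2 (nu P) := by
      exact (memLp_map_measure_iff hg.1 hX.aemeasurable).mp hg
    have h0 := h.complete (fun ω => g (XX n u f ω)) hg2 (by
      intro k
      have h1 := horth (fq k) ⟨k, rfl⟩
      have hmeas : Measurable (fun x : Fin (m + m) → ℝ =>
          Complex.exp (-(2 * π * Complex.I * ((∑ i, fq k i * x i : ℝ) : ℂ)))) := by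
        fun_prop
      have hms : AEStronglyMeasurable (fun x : Fin (m + m) → ℝ => g x *
          Complex.exp (-(2 * π * Complex.I * ((∑ i, fq k i * x i : ℝ) : ℂ))))
          ((nu P).map (XX n u f)) := hg.1.mul hmeas.aestronglyMeasurable
      rw [integral_map hX.aemeasurable hms] at h1
      simp only [sum_fq1] at h1
      rw [← h1]
      congr 1
      funext ω
      unfold ee
      congr 2
      push_cast
      ring)
    -- transfer
    obtain ⟨g', hg'm, hgg'⟩ := hg.1
    have h2 : ∀ᵐ ω ∂(nu P), g (XX n u f ω) = g' (XX n u f ω) :=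
      ae_of_ae_map hX.aemeasurable hgg'
    have h3 : ∀ᵐ ω ∂(nu P), g' (XX n u f ω) = 0 := by
      filter_upwards [h0, h2] with ω hω1 hω2
      rw [← hω2]
      exact hω1
    have h4 : ∀ᵐ x ∂((nu P).map (XX n u f)), g' x = 0 :=
      (ae_map_iff (p := fun x => g' x = 0) hX.aemeasurable
        (hg'm.measurable (measurableSet_singleton 0))).mpr h3
    filter_upwards [hgg', h4] with x hx1 hx2
    rw [hx1, hx2]
    rfl

end Pool.Agent.W488.Sp

namespace Pool.Agent.W488.SpecA

open Pool.Agent.W754.Sp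

theorem exists_spectral_measure {m : ℕ} (n : Fin m → ℤ) (hn : ∀ j, 3 ≤ n j) {P : Type} [Fintype P] [Nonempty P]
  (u f : P → Fin m → ℤ) (huinj : Function.Injective u)
  (hrange : ∀ p p' j, 0 ≤ u p j + f p' j ∧ u p j + f p' j ≤ n j)
  (hbij : ∀ z : Fin m → ℤ, ∃! pp : P × P, ∀ j, n j ∣ z j - (u pp.1 j + f pp.2 j)) :
  ∃ μ : Measure (Fin (m+m) → ℝ), IsProbabilityMeasure μ ∧
    μ = ((BB u f).card : ℝ≥0∞)⁻¹ • ∑ b ∈ BB u f, μ.map (fun x => ((RR n).map (Int.cast : ℤ → ℝ))⁻¹ *ᵥ (x + fun i => (b i : ℝ))) ∧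
    (∃ Λ : Set (Fin (m+m) → ℝ),
      (∀ l ∈ Λ, ∀ l' ∈ Λ,
        (l = l' → ∫ x, Complex.exp (2 * π * Complex.I * ((∑ i, (l i - l' i) * x i : ℝ) : ℂ)) ∂μ = 1) ∧
        (l ≠ l' → ∫ x, Complex.exp (2 * π * Complex.I * ((∑ i, (l i - l' i) * x i : ℝ) : ℂ)) ∂μ = 0)) ∧
      (∀ g : (Fin (m+m) → ℝ) → ℂ, MemLp g 2 μ →
        (∀ l ∈ Λ, ∫ x, g x * Complex.exp (-(2 * π * Complex.I * ((∑ i, l i * x i : ℝ) : ℂ))) ∂μ = 0) → g =ᵐ[μ] 0)) := by
  letI : MeasurableSpace P := ⊤
  have : DiscreteMeasurableSpace P := ⟨fun _ => trivial⟩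
  exact (Sp.Hyp.mk hn hrange hbij).main huinj

end Pool.Agent.W488.SpecA
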