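import Pool.Agent.W754.NoOverlap2
import Pool.Agent.W488.Sp.Main

/-!
Attractor and absence of overlap.
-/

set_option autoImplicit false

open MeasureTheory Matrix
open scoped ENNReal Real

namespace Pool.Agent.W488.Sp

open Pool.Agent.W754.Sp

/-- the maps of the iterated function system -/
noncomputable def tau {d : ℕ} (R : Matrix (Fin d) (Fin d) ℤ) (b : Fin d → ℤ) (x : Fin d → ℝ) :
    Fin d → ℝ :=
  (R.map (Int.cast : ℤ → ℝ))⁻¹ *ᵥ (x + fun i => (b i : ℝ))

/-- spectral in the sense of integrals -/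
def IsSpectralI {d : ℕ} (μ : Measure (Fin d → ℝ)) (Λ : Set (Fin d → ℝ)) : Prop :=
  (∀ l ∈ Λ, ∀ l' ∈ Λ,
    (l = l' → ∫ x, Complex.exp (2 * π * Complex.I * ((∑ i, (l i - l' i) * x i : ℝ) : ℂ)) ∂μ = 1) ∧
    (l ≠ l' → ∫ x, Complex.exp (2 * π * Complex.I * ((∑ i, (l i - l' i) * x i : ℝ) : ℂ)) ∂μ = 0)) ∧
  (∀ g : (Fin d → ℝ) → ℂ, MemLp g 2 μ →
    (∀ l ∈ Λ, ∫ x, g x * Complex.exp (-(2 * π * Complex.I * ((∑ i, l i * x i : ℝ) : ℂ))) ∂μ = 0) →
      g =ᵐ[μ] 0)

theorem noOverlap_of_spectral (d : ℕ) (R : Matrix (Fin d) (Fin d) ℤ) (B : Finset (Fin d → ℤ))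
    (φ : (Fin d → ℤ) → (Fin d → ℝ) → (Fin d → ℝ))
    (μ : MeasureTheory.Measure (Fin d → ℝ))
    (hroot : ∀ z : ℂ, (R.map (Int.castRingHom ℂ)).charpoly.IsRoot z → 1 < ‖z‖)
    (hφ : ∀ b x, φ b x = (R.map (Int.castRingHom ℝ))⁻¹ *ᵥ (x + fun i => (b i : ℝ)))
    (hprob : MeasureTheory.IsProbabilityMeasure μ)
    (hμ : μ = ∑ b ∈ B, ((B.card : ENNReal)⁻¹) • μ.map (φ b))
    (hspec : ∃ (Λ : Set (Fin d → ℝ)) (e : Λ → MeasureTheory.Lp ℂ 2 μ),
      (∀ l : Λ, (e l : (Fin d → ℝ) → ℂ) =ᵐ[μ]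
        fun x => Complex.exp (2 * Real.pi * Complex.I
          * ((∑ i, (l : Fin d → ℝ) i * x i : ℝ) : ℂ))) ∧
      Orthonormal ℂ e ∧
      (Submodule.span ℂ (Set.range e)).topologicalClosure = ⊤)
    (T : Set (Fin d → ℝ)) (hT : IsCompact T) (hTne : T.Nonempty) (hTeq : T = ⋃ b ∈ B, φ b '' T) :
    ∀ b ∈ B, ∀ b' ∈ B, b ≠ b' → μ (φ b '' T ∩ φ b' '' T) = 0 := by
  intro b hb b' hb' hbb
  obtain ⟨Λ, e, he, ho, hs⟩ := hspec
  have hB : B.Nonempty := ⟨b, hb⟩
  obtain ⟨hA, hdet, c, hc, hcb⟩ := Pool.Agent.W754.int_pow_inv_tendsto R hroot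
  have hφ' : ∀ b x, φ b x =
      Matrix.mulVec (R.map (Int.castRingHom ℝ))⁻¹ (x + Pool.Agent.W754.toR b) := hφ
  have hφc : ∀ c, Continuous (φ c) := by
    intro c
    have h1 : φ c = fun x =>
        Matrix.mulVec (R.map (Int.castRingHom ℝ))⁻¹ (x + Pool.Agent.W754.toR c) :=
      funext fun x => hφ' c x
    rw [h1]
    exact ((Matrix.mulVecLin (R.map (Int.castRingHom ℝ))⁻¹).continuous_of_finiteDimensional).comp
      (continuous_id.add continuous_const)
  have hφm : ∀ b ∈ B, Measurable (φ b) := fun b _ => (hφc b).measurable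
  have hμS : ∀ S : Set (Fin d → ℝ), MeasurableSet S →
      μ S = (B.card : ENNReal)⁻¹ * ∑ b ∈ B, μ (φ b ⁻¹' S) := by
    intro S hS
    conv_lhs => rw [hμ]
    rw [MeasureTheory.Measure.finsetSum_apply, Finset.mul_sum]
    refine Finset.sum_congr rfl fun b hb => ?_
    rw [MeasureTheory.Measure.smul_apply, MeasureTheory.Measure.map_apply (hφm b hb) hS,
      smul_eq_mul]
  have hTsub : ∀ b ∈ B, φ b '' T ⊆ T := by
    intro b hb x hx
    rw [hTeq]
    simp only [Set.mem_iUnion, exists_prop]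
    exact ⟨b, hb, hx⟩
  have hTμ : μ Tᶜ = 0 := Pool.Agent.W754.attractor_full R B hB φ μ hA hφ' hφm c hc hcb hμS T hT
    hTne hTsub
  refine Pool.Agent.W754.no_overlap_of_dig_injective R B hB φ μ hA hφ' hφm hμS T hT hTμ hTeq ?_
    b hb b' hb' hbb
  intro k L1 hL1 L2 hL2 hdig
  exact Pool.Agent.W754.dig_injective_of_spectral R B hB hdet φ μ hA hφ' hφm hμS T hT hTne hTμ
    Λ e he ho hs k L1 hL1 L2 hL2 hdig

/-- the exponential as an element of `L²` -/
theorem memLp_exp {d : ℕ} (μ : Measure (Fin d → ℝ)) [IsProbabilityMeasure μ] (l : Fin d → ℝ) :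
    MemLp (fun x : Fin d → ℝ => Complex.exp (2 * π * Complex.I * ((∑ i, l i * x i : ℝ) : ℂ)))
      2 μ := by
  apply MemLp.of_bound (C := 1)
  · exact (by fun_prop : Measurable (fun x : Fin d → ℝ =>
      Complex.exp (2 * π * Complex.I * ((∑ i, l i * x i : ℝ) : ℂ)))).aestronglyMeasurable
  · filter_upwards with x
    rw [show (2 * π * Complex.I * ((∑ i, l i * x i : ℝ) : ℂ)) =
      ((2 * π * (∑ i, l i * x i) : ℝ) : ℂ) * Complex.I by push_cast; ring,
      Complex.norm_exp_ofReal_mul_I]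

theorem exists_onb {d : ℕ} (μ : Measure (Fin d → ℝ)) [IsProbabilityMeasure μ]
    (Λ : Set (Fin d → ℝ)) (h : IsSpectralI μ Λ) :
    ∃ (e : Λ → MeasureTheory.Lp ℂ 2 μ),
      (∀ l : Λ, (e l : (Fin d → ℝ) → ℂ) =ᵐ[μ]
        fun x => Complex.exp (2 * Real.pi * Complex.I
          * ((∑ i, (l : Fin d → ℝ) i * x i : ℝ) : ℂ))) ∧
      Orthonormal ℂ e ∧
      (Submodule.span ℂ (Set.range e)).topologicalClosure = ⊤ := by
  classical
  have hconj : ∀ (l : Fin d → ℝ) (x : Fin d → ℝ),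
      (starRingEnd ℂ) (Complex.exp (2 * π * Complex.I * ((∑ i, l i * x i : ℝ) : ℂ))) =
        Complex.exp (-(2 * π * Complex.I * ((∑ i, l i * x i : ℝ) : ℂ))) := by
    intro l x
    rw [← Complex.exp_conj]
    congr 1
    simp only [map_mul, Complex.conj_I, Complex.conj_ofReal, map_ofNat]
    ring
  refine ⟨fun l => (memLp_exp μ l.1).toLp _, fun l => (memLp_exp μ l.1).coeFn_toLp, ?_, ?_⟩
  · rw [orthonormal_iff_ite]
    intro l l'
    rw [MeasureTheory.L2.inner_def]
    have h1 : ∫ a, inner ℂ (((memLp_exp μ l.1).toLp _ : Lp ℂ 2 μ) a)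
        (((memLp_exp μ l'.1).toLp _ : Lp ℂ 2 μ) a) ∂μ =
        ∫ x, Complex.exp (2 * π * Complex.I * ((∑ i, (l'.1 i - l.1 i) * x i : ℝ) : ℂ)) ∂μ := by
      apply integral_congr_ae
      filter_upwards [(memLp_exp μ l.1).coeFn_toLp, (memLp_exp μ l'.1).coeFn_toLp] with x h1 h2
      rw [h1, h2, RCLike.inner_apply, hconj, ← Complex.exp_add]
      congr 1
      have : (∑ i, (l'.1 i - l.1 i) * x i) = (∑ i, l'.1 i * x i) - ∑ i, l.1 i * x i := by
        rw [← Finset.sum_sub_distrib]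
        apply Finset.sum_congr rfl
        intro i _
        ring
      rw [this]
      push_cast
      ring
    rw [h1]
    by_cases hl : l = l'
    · rw [if_pos hl]
      exact (h.1 l'.1 l'.2 l.1 l.2).1 (by rw [hl])
    · rw [if_neg hl]
      exact (h.1 l'.1 l'.2 l.1 l.2).2 (fun h2 => hl (Subtype.ext h2.symm))
  · rw [Submodule.topologicalClosure_eq_top_iff, Submodule.eq_bot_iff]
    intro g hg
    rw [Submodule.mem_orthogonal] at hg
    have h2 : (g : (Fin d → ℝ) → ℂ) =ᵐ[μ] 0 := by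
      apply h.2 g (Lp.memLp g)
      intro l hl
      have h3 := hg _ (Submodule.subset_span ⟨⟨l, hl⟩, rfl⟩)
      rw [MeasureTheory.L2.inner_def] at h3
      rw [← h3]
      apply integral_congr_ae
      filter_upwards [(memLp_exp μ l).coeFn_toLp] with x h4
      rw [h4, RCLike.inner_apply, hconj]
    exact (Lp.eq_zero_iff_ae_eq_zero).mpr h2

variable {m : ℕ} {P : Type} [Fintype P]
variable {n : Fin m → ℤ} {u f : P → Fin m → ℤ}

omit [Fintype P] in
theorem Hyp.continuous_YY [TopologicalSpace P] [DiscreteTopology P] (h : Hyp n u f) (j : Fin m) :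
    Continuous (fun ω : ℕ → P => YY n u f ω j) := by
  unfold YY
  apply continuous_tsum (u := fun i => ((n j : ℝ)⁻¹) ^ i)
  · intro i
    apply Continuous.div_const
    have h1 : Continuous (fun ω : ℕ → P => u (ω (2 * i)) j) :=
      (continuous_of_discreteTopology (f := fun p : P => u p j)).comp (continuous_apply (2 * i))
    have h2 : Continuous (fun ω : ℕ → P => f (ω (2 * i + 1)) j) :=
      (continuous_of_discreteTopology (f := fun p : P => f p j)).comp (continuous_apply (2 * i + 1))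
    exact (continuous_of_discreteTopology (f := fun z : ℤ => (z : ℝ))).comp (h1.add h2)
  · exact h.summable_geo j
  · intro i ω
    rw [Real.norm_of_nonneg (h.term_nonneg ω j i)]
    exact h.term_le ω j i

omit [Fintype P] in
theorem XX_castAdd' (ω : ℕ → P) (j : Fin m) :
    XX n u f ω (Fin.castAdd m j) = (f (ω 0) j : ℝ) + YY n u f (sh ω) j := by
  unfold XX
  rw [Fin.append_left]

omit [Fintype P] in
theorem XX_natAdd' (ω : ℕ → P) (j : Fin m) :
    XX n u f ω (Fin.natAdd m j) = YY n u f ω j := by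
  unfold XX
  rw [Fin.append_right]

omit [Fintype P] in
theorem Hyp.continuous_XX [TopologicalSpace P] [DiscreteTopology P] (h : Hyp n u f) :
    Continuous (XX n u f) := by
  apply continuous_pi
  intro i
  refine Fin.addCases (fun j => ?_) (fun j => ?_) i
  · simp only [XX_castAdd']
    have h1 : Continuous (fun ω : ℕ → P => (f (ω 0) j : ℝ)) :=
      (continuous_of_discreteTopology (f := fun p : P => (f p j : ℝ))).comp (continuous_apply 0)
    have h2 : Continuous (sh : (ℕ → P) → (ℕ → P)) :=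
      continuous_pi (fun i => continuous_apply (i + 1))
    exact h1.add ((h.continuous_YY j).comp h2)
  · simp only [XX_natAdd']
    exact h.continuous_YY j

theorem Hyp.attractor (h : Hyp n u f) [Nonempty P] :
    IsCompact (Set.range (XX n u f)) ∧ (Set.range (XX n u f)).Nonempty ∧
      Set.range (XX n u f) = ⋃ b ∈ BB u f, tau (RR n) b '' (Set.range (XX n u f)) := by
  let _ : TopologicalSpace P := ⊥
  have : DiscreteTopology P := ⟨rfl⟩
  have : CompactSpace (ℕ → P) := inferInstance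
  refine ⟨isCompact_range h.continuous_XX, Set.range_nonempty _, ?_⟩
  ext x
  simp only [Set.mem_iUnion, Set.mem_image, Set.mem_range, exists_prop]
  constructor
  · rintro ⟨ω, rfl⟩
    refine ⟨dg u f (ω 0), ?_, XX n u f (sh ω), ⟨sh ω, rfl⟩, ?_⟩
    · unfold BB
      exact Finset.mem_image_of_mem _ (Finset.mem_univ _)
    · unfold tau
      let _ : MeasurableSpace P := ⊤
      have : DiscreteMeasurableSpace P := ⟨fun _ => trivial⟩
      rw [← h.XX_cns, cns_sh]
  · rintro ⟨b, hb, y, ⟨ω, rfl⟩, rfl⟩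
    unfold BB at hb
    rw [Finset.mem_image] at hb
    obtain ⟨p, -, rfl⟩ := hb
    refine ⟨cns p ω, ?_⟩
    let _ : MeasurableSpace P := ⊤
    have : DiscreteMeasurableSpace P := ⟨fun _ => trivial⟩
    exact h.XX_cns p ω

end Pool.Agent.W488.Sp
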