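import Pool.Agent.W488.Sp.Nu

/-!
The coding map of the second half of the self-affine measure.
-/

set_option autoImplicit false

open MeasureTheory
open scoped ENNReal

namespace Pool.Agent.W488.Sp

variable {m : ℕ} {P : Type}

/-- the vector digits -/
def ww (u f : P → Fin m → ℤ) (ω : ℕ → P) (i : ℕ) (j : Fin m) : ℤ :=
  u (ω (2 * i)) j + f (ω (2 * i + 1)) j

/-- the sum of the series -/
noncomputable def YY (n : Fin m → ℤ) (u f : P → Fin m → ℤ) (ω : ℕ → P) (j : Fin m) : ℝ :=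
  ∑' i : ℕ, (ww u f ω i j : ℝ) / (n j : ℝ) ^ (i + 1)

/-- shift by one letter -/
def sh (ω : ℕ → P) : ℕ → P := fun i => ω (i + 1)

@[simp] theorem sh_cns (p : P) (ω : ℕ → P) : sh (cns p ω) = ω := rfl

theorem cns_sh (ω : ℕ → P) : cns (ω 0) (sh ω) = ω := by
  funext i
  cases i <;> rfl

/-- hypotheses on the digits -/
structure Hyp (n : Fin m → ℤ) (u f : P → Fin m → ℤ) : Prop where
  hn : ∀ j, 3 ≤ n j
  hrange : ∀ p p' j, 0 ≤ u p j + f p' j ∧ u p j + f p' j ≤ n j
  hbij : ∀ z : Fin m → ℤ, ∃! pp : P × P, ∀ j, n j ∣ z j - (u pp.1 j + f pp.2 j)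

variable {n : Fin m → ℤ} {u f : P → Fin m → ℤ}

theorem ww_cns (p q : P) (ω : ℕ → P) (i : ℕ) (j : Fin m) :
    ww u f (cns p (cns q ω)) (i + 1) j = ww u f ω i j := by
  unfold ww
  rfl

theorem ww_cns0 (p q : P) (ω : ℕ → P) (j : Fin m) :
    ww u f (cns p (cns q ω)) 0 j = u p j + f q j := rfl

theorem ww_sh (ω : ℕ → P) (i : ℕ) (j : Fin m) :
    ww u f (sh (sh ω)) i j = ww u f ω (i + 1) j := by
  unfold ww sh
  rfl

theorem Hyp.n_pos (h : Hyp n u f) (j : Fin m) : (3 : ℝ) ≤ (n j : ℝ) := by exact_mod_cast h.hn j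

theorem Hyp.term_nonneg (h : Hyp n u f) (ω : ℕ → P) (j : Fin m) (i : ℕ) :
    0 ≤ (ww u f ω i j : ℝ) / (n j : ℝ) ^ (i + 1) := by
  have := h.n_pos j
  have h1 : (0 : ℝ) ≤ (ww u f ω i j : ℝ) := by exact_mod_cast (h.hrange _ _ _).1
  positivity

theorem Hyp.term_le (h : Hyp n u f) (ω : ℕ → P) (j : Fin m) (i : ℕ) :
    (ww u f ω i j : ℝ) / (n j : ℝ) ^ (i + 1) ≤ ((n j : ℝ)⁻¹) ^ i := by
  have h3 := h.n_pos j
  have h1 : (ww u f ω i j : ℝ) ≤ (n j : ℝ) := by exact_mod_cast (h.hrange _ _ _).2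
  have h0 : (0 : ℝ) < n j := by linarith
  rw [div_le_iff₀ (by positivity), pow_succ, ← mul_assoc, ← mul_pow, inv_mul_cancel₀ h0.ne',
    one_pow, one_mul]
  exact h1

theorem Hyp.summable_geo (h : Hyp n u f) (j : Fin m) :
    Summable (fun i : ℕ => ((n j : ℝ)⁻¹) ^ i) := by
  have h3 := h.n_pos j
  have h0 : (0 : ℝ) < n j := by linarith
  apply summable_geometric_of_lt_one (by positivity)
  rw [inv_lt_one_iff₀]
  right; linarith

theorem Hyp.summable (h : Hyp n u f) (ω : ℕ → P) (j : Fin m) :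
    Summable (fun i : ℕ => (ww u f ω i j : ℝ) / (n j : ℝ) ^ (i + 1)) :=
  Summable.of_nonneg_of_le (h.term_nonneg ω j) (h.term_le ω j) (h.summable_geo j)

theorem Hyp.YY_nonneg (h : Hyp n u f) (ω : ℕ → P) (j : Fin m) : 0 ≤ YY n u f ω j :=
  tsum_nonneg (h.term_nonneg ω j)

theorem Hyp.YY_le (h : Hyp n u f) (ω : ℕ → P) (j : Fin m) : YY n u f ω j ≤ 3 / 2 := by
  have h3 := h.n_pos j
  have h0 : (0 : ℝ) < n j := by linarith
  have h1 : YY n u f ω j ≤ ∑' i : ℕ, ((n j : ℝ)⁻¹) ^ i :=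
    (h.summable ω j).tsum_le_tsum (h.term_le ω j) (h.summable_geo j)
  have h2 : (n j : ℝ)⁻¹ ≤ 1 / 3 := by
    rw [inv_eq_one_div]
    exact one_div_le_one_div_of_le (by norm_num) h3
  have h4 : (0 : ℝ) < (n j : ℝ)⁻¹ := by positivity
  rw [tsum_geometric_of_lt_one h4.le (by linarith)] at h1
  refine h1.trans ?_
  rw [inv_le_comm₀ (by linarith) (by norm_num)]
  norm_num
  linarith

theorem Hyp.YY_rec (h : Hyp n u f) (ω : ℕ → P) (j : Fin m) :
    YY n u f ω j = (ww u f ω 0 j + YY n u f (sh (sh ω)) j) / n j := by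
  have h3 := h.n_pos j
  have h0 : (0 : ℝ) < n j := by linarith
  unfold YY
  rw [(h.summable ω j).tsum_eq_zero_add, add_div, zero_add, pow_one]
  congr 1
  rw [← tsum_div_const]
  apply tsum_congr
  intro i
  rw [ww_sh, div_div, ← pow_succ]

theorem Hyp.YY_cns (h : Hyp n u f) (p q : P) (ω : ℕ → P) (j : Fin m) :
    YY n u f (cns p (cns q ω)) j = ((u p j + f q j : ℤ) + YY n u f ω j) / n j := by
  rw [h.YY_rec, ww_cns0, sh_cns, sh_cns]

/-- pattern: the digits at `k`, `k + 1` are `(1, …, 1)`, `(2, …, 2)` -/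
def pat (u f : P → Fin m → ℤ) (ω : ℕ → P) (k : ℕ) : Prop :=
  (∀ j, ww u f ω k j = 1) ∧ ∀ j, ww u f ω (k + 1) j = 2

/-- `2 k`-fold shift -/
def shk (k : ℕ) (ω : ℕ → P) : ℕ → P := fun i => ω (2 * k + i)

theorem ww_shk (k : ℕ) (ω : ℕ → P) (i : ℕ) (j : Fin m) :
    ww u f (shk k ω) i j = ww u f ω (k + i) j := by
  unfold ww shk
  rw [show 2 * k + 2 * i = 2 * (k + i) by ring, show 2 * k + (2 * i + 1) = 2 * (k + i) + 1 by ring]

theorem sh_sh_shk (k : ℕ) (ω : ℕ → P) : sh (sh (shk k ω)) = shk (k + 1) ω := by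
  funext i
  unfold sh shk
  congr 1
  ring

theorem shk_zero (ω : ℕ → P) : shk 0 ω = ω := by
  funext i
  unfold shk
  simp

theorem Hyp.rec_k (h : Hyp n u f) (k : ℕ) (ω : ℕ → P) (j : Fin m) :
    (n j : ℝ) * YY n u f (shk k ω) j = ww u f ω k j + YY n u f (shk (k + 1) ω) j := by
  have h3 := h.n_pos j
  have h0 : (0 : ℝ) < n j := by linarith
  rw [h.YY_rec, sh_sh_shk, ww_shk, add_zero, mul_div_cancel₀ _ h0.ne']

/-- the main injectivity statement -/
theorem Hyp.inj (h : Hyp n u f) (ω ω' : ℕ → P)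
    (hgood : ∀ N, ∃ k, N ≤ k ∧ pat u f ω k)
    (hint : ∀ j, ∃ z : ℤ, YY n u f ω j - YY n u f ω' j = z) : ω = ω' := by
  -- integrality
  have hs : ∀ k, ∀ j, ∃ z : ℤ, YY n u f (shk k ω) j - YY n u f (shk k ω') j = z := by
    intro k
    induction k with
    | zero =>
      intro j
      rw [shk_zero, shk_zero]
      exact hint j
    | succ k ih =>
      intro j
      obtain ⟨z, hz⟩ := ih j
      refine ⟨n j * z - (ww u f ω k j - ww u f ω' k j), ?_⟩
      have e1 := h.rec_k k ω j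
      have e2 := h.rec_k k ω' j
      push_cast
      rw [← hz]
      linear_combination e2 - e1
  choose s hs using hs
  have hrec : ∀ k j, n j * s k j = (ww u f ω k j - ww u f ω' k j) + s (k + 1) j := by
    intro k j
    have e1 := h.rec_k k ω j
    have e2 := h.rec_k k ω' j
    have e3 : ((n j * s k j : ℤ) : ℝ) = (((ww u f ω k j - ww u f ω' k j) + s (k + 1) j : ℤ) : ℝ) := by
      push_cast
      rw [← hs, ← hs]
      linear_combination e1 - e2
    exact_mod_cast e3
  have hb : ∀ k j, -1 ≤ s k j ∧ s k j ≤ 1 := by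
    intro k j
    have a1 := h.YY_nonneg (shk k ω) j
    have a2 := h.YY_le (shk k ω) j
    have a3 := h.YY_nonneg (shk k ω') j
    have a4 := h.YY_le (shk k ω') j
    have a5 := hs k j
    have b1 : (s k j : ℝ) < 2 := by rw [← a5]; linarith
    have b2 : (-2 : ℝ) < s k j := by rw [← a5]; linarith
    have b3 : s k j < 2 := by exact_mod_cast b1
    have b4 : -2 < s k j := by exact_mod_cast b2
    omega
  have hr : ∀ k j, 0 ≤ ww u f ω' k j ∧ ww u f ω' k j ≤ n j := fun k j => h.hrange _ _ _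
  have hz : ∀ k, pat u f ω k → ∀ j, s k j = 0 := by
    intro k hk j
    have c1 := hrec k j
    have c2 := hrec (k + 1) j
    rw [hk.1 j] at c1
    rw [hk.2 j] at c2
    have d1 := hr k j
    have d2 := hr (k + 1) j
    have e1 := hb (k + 1) j
    have e2 := hb (k + 1 + 1) j
    have e3 := hb k j
    have hn := h.hn j
    -- s (k+1) is 0 or 1
    have f1 : 0 ≤ s (k + 1) j := by
      by_contra hneg
      have : s (k + 1) j = -1 := by omega
      rw [this] at c2
      omega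
    have f2 : s k j ≤ 0 := by
      by_contra hpos
      have : s k j = 1 := by omega
      rw [this] at c1
      omega
    have f3 : 0 ≤ s k j := by
      by_contra hneg
      have : s k j = -1 := by omega
      rw [this] at c1
      omega
    omega
  -- going down
  have hdown : ∀ k, (∀ j, s (k + 1) j = 0) →
      (∀ j, s k j = 0) ∧ ω (2 * k) = ω' (2 * k) ∧ ω (2 * k + 1) = ω' (2 * k + 1) := by
    intro k hk
    have h1 : ∀ j, n j ∣ ww u f ω k j - (u (ω' (2 * k)) j + f (ω' (2 * k + 1)) j) := by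
      intro j
      refine ⟨s k j, ?_⟩
      have := hrec k j
      rw [hk j, add_zero] at this
      rw [this]
      rfl
    have h2 : ∀ j, n j ∣ ww u f ω k j - (u (ω (2 * k)) j + f (ω (2 * k + 1)) j) := by
      intro j
      have : ww u f ω k j - (u (ω (2 * k)) j + f (ω (2 * k + 1)) j) = 0 := by
        unfold ww; ring
      rw [this]
      exact dvd_zero _
    have h3 := (h.hbij (ww u f ω k)).unique (y₁ := (ω' (2 * k), ω' (2 * k + 1)))
      (y₂ := (ω (2 * k), ω (2 * k + 1))) h1 h2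
    have h4 : ω' (2 * k) = ω (2 * k) := congrArg Prod.fst h3
    have h5 : ω' (2 * k + 1) = ω (2 * k + 1) := congrArg Prod.snd h3
    refine ⟨?_, h4.symm, h5.symm⟩
    intro j
    have := hrec k j
    have h6 : ww u f ω k j = ww u f ω' k j := by
      unfold ww
      rw [h4, h5]
    rw [hk j, h6, sub_self, zero_add] at this
    have hn := h.hn j
    rcases mul_eq_zero.mp this with h7 | h7
    · omega
    · exact h7
  have hall : ∀ k, ∀ j, s k j = 0 := by
    intro k
    obtain ⟨K, hK, hp⟩ := hgood k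
    have h1 : ∀ t, ∀ i, i + t = K → ∀ j, s i j = 0 := by
      intro t
      induction t with
      | zero =>
        intro i hi
        rw [add_zero] at hi
        rw [hi]
        exact hz K hp
      | succ t ih =>
        intro i hi
        exact (hdown i (ih (i + 1) (by omega))).1
    exact h1 (K - k) k (by omega)
  funext i
  obtain ⟨k, hk | hk⟩ := Nat.even_or_odd' i
  · rw [hk]
    exact (hdown k (hall (k + 1))).2.1
  · rw [hk]
    exact (hdown k (hall (k + 1))).2.2

end Pool.Agent.W488.Sp
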