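import Pool.Agent.W488.Sp.Good

/-!
Fourier transform of the law of `YY` at integer points.
-/

set_option autoImplicit false

open MeasureTheory
open scoped ENNReal Real

namespace Pool.Agent.W488.Sp

variable {m : ℕ} {P : Type} [Fintype P] [Nonempty P] [MeasurableSpace P]
  [DiscreteMeasurableSpace P]
variable {n : Fin m → ℤ} {u f : P → Fin m → ℤ}

/-- `e(t) = exp(2 π i t)` -/
noncomputable def ee (t : ℝ) : ℂ := Complex.exp (2 * π * Complex.I * (t : ℂ))

theorem ee_add (s t : ℝ) : ee (s + t) = ee s * ee t := by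
  unfold ee
  rw [← Complex.exp_add]
  congr 1
  push_cast
  ring

theorem ee_int (z : ℤ) : ee (z : ℝ) = 1 := by
  unfold ee
  rw [Complex.exp_eq_one_iff]
  exact ⟨z, by push_cast; ring⟩

theorem ee_zero : ee 0 = 1 := by
  have := ee_int 0
  simpa using this

theorem norm_ee (t : ℝ) : ‖ee t‖ = 1 := by
  unfold ee
  rw [show (2 * π * Complex.I * (t : ℂ)) = ((2 * π * t : ℝ) : ℂ) * Complex.I by push_cast; ring]
  exact Complex.norm_exp_ofReal_mul_I _

theorem ee_eq_one {t : ℝ} (h : ee t = 1) : ∃ z : ℤ, t = z := by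
  unfold ee at h
  rw [Complex.exp_eq_one_iff] at h
  obtain ⟨z, hz⟩ := h
  refine ⟨z, ?_⟩
  have h2 : (2 * π * Complex.I : ℂ) ≠ 0 := Complex.two_pi_I_ne_zero
  have h3 : (2 * π * Complex.I : ℂ) * (t : ℂ) = (2 * π * Complex.I : ℂ) * (z : ℂ) := by
    rw [hz]; ring
  have h4 := mul_left_cancel₀ h2 h3
  exact_mod_cast h4

theorem measurable_ee : Measurable ee := by
  unfold ee
  fun_prop

/-- the characteristic function -/
noncomputable def ft (n : Fin m → ℤ) (u f : P → Fin m → ℤ) (θ : Fin m → ℝ) : ℂ :=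
  ∫ ω, ee (∑ j, θ j * YY n u f ω j) ∂(nu P)

theorem Hyp.measurable_int (h : Hyp n u f) (θ : Fin m → ℝ) :
    Measurable (fun ω : ℕ → P => ee (∑ j, θ j * YY n u f ω j)) := by
  apply measurable_ee.comp
  apply Finset.measurable_fun_sum
  intro j _
  exact ((measurable_pi_apply j).comp h.measurable_YY).const_mul _

theorem integrable_of_norm_one {g : (ℕ → P) → ℂ} (hg : Measurable g) (h1 : ∀ ω, ‖g ω‖ = 1) :
    Integrable g (nu P) :=
  Integrable.of_bound hg.aestronglyMeasurable 1 (Filter.Eventually.of_forall fun ω => (h1 ω).le)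

theorem Hyp.ft_rec (h : Hyp n u f) (θ : Fin m → ℝ) :
    ft n u f (fun j => (n j : ℝ) * θ j) =
      ((Fintype.card P : ℝ)⁻¹ * (Fintype.card P : ℝ)⁻¹ : ℝ) •
        ((∑ p : P, ∑ q : P, ee (∑ j, θ j * (u p j + f q j : ℤ))) * ft n u f θ) := by
  unfold ft
  have hm := h.measurable_int (fun j => (n j : ℝ) * θ j)
  rw [integral_nu (integrable_of_norm_one hm (fun ω => norm_ee _)) hm.stronglyMeasurable]
  have h1 : ∀ p : P, ∫ ω, ee (∑ j, (n j : ℝ) * θ j * YY n u f (cns p ω) j) ∂(nu P) =
      (Fintype.card P : ℝ)⁻¹ • ∑ q : P,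
        (ee (∑ j, θ j * (u p j + f q j : ℤ)) * ∫ ω, ee (∑ j, θ j * YY n u f ω j) ∂(nu P)) := by
    intro p
    have hm2 : Measurable (fun ω : ℕ → P =>
        ee (∑ j, (n j : ℝ) * θ j * YY n u f (cns p ω) j)) := hm.comp (measurable_cns p)
    rw [integral_nu (integrable_of_norm_one hm2 (fun ω => norm_ee _)) hm2.stronglyMeasurable]
    congr 1
    apply Finset.sum_congr rfl
    intro q _
    rw [← integral_const_mul]
    apply integral_congr_ae
    filter_upwards with ω
    rw [← ee_add, ← Finset.sum_add_distrib]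
    congr 1
    apply Finset.sum_congr rfl
    intro j _
    rw [h.YY_cns]
    have h3 := h.n_pos j
    have h0 : (n j : ℝ) ≠ 0 := by linarith
    field_simp
  rw [Finset.sum_congr rfl (fun p _ => h1 p), ← Finset.smul_sum, smul_smul, Finset.sum_mul]
  congr 1
  apply Finset.sum_congr rfl
  intro p _
  rw [Finset.sum_mul]

omit [MeasurableSpace P] [DiscreteMeasurableSpace P] [Nonempty P] in
/-- character sums over the complete residue system vanish -/
theorem Hyp.sum_zero (h : Hyp n u f) (k : Fin m → ℤ) (j₀ : Fin m) (hj : ¬ n j₀ ∣ k j₀) :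
    ∑ p : P, ∑ q : P, ee (∑ j, ((k j : ℝ) / n j) * (u p j + f q j : ℤ)) = 0 := by
  classical
  rw [← Fintype.sum_prod_type' (f := fun p q => ee (∑ j, ((k j : ℝ) / n j) * (u p j + f q j : ℤ)))]
  set F : P × P → ℂ := fun x => ee (∑ j, ((k j : ℝ) / n j) * (u x.1 j + f x.2 j : ℤ)) with hF
  choose c hc hcu using h.hbij
  -- the translation
  let σ : P × P → P × P := fun x => c (fun j => u x.1 j + f x.2 j + if j = j₀ then 1 else 0)
  have hσ : ∀ x j, n j ∣ (u x.1 j + f x.2 j + if j = j₀ then 1 else 0) -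
      (u (σ x).1 j + f (σ x).2 j) := fun x j =>
    hc (fun j => u x.1 j + f x.2 j + if j = j₀ then 1 else 0) j
  have hinj : Function.Injective σ := by
    intro x y hxy
    have h1 : ∀ j, n j ∣ (u x.1 j + f x.2 j) - (u y.1 j + f y.2 j) := by
      intro j
      have a := hσ x j
      have b := hσ y j
      rw [← hxy] at b
      have := dvd_sub a b
      have e : (u x.1 j + f x.2 j + if j = j₀ then 1 else 0) - (u (σ x).1 j + f (σ x).2 j) -
        ((u y.1 j + f y.2 j + if j = j₀ then 1 else 0) - (u (σ x).1 j + f (σ x).2 j)) =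
        (u x.1 j + f x.2 j) - (u y.1 j + f y.2 j) := by ring
      rwa [e] at this
    have h2 := hcu (fun j => u x.1 j + f x.2 j) y h1
    have h3 := hcu (fun j => u x.1 j + f x.2 j) x (fun j => by simp)
    exact h3.trans h2.symm
  have hbij : Function.Bijective σ := Finite.injective_iff_bijective.mp hinj
  have hshift : ∀ x, F (σ x) = F x * ee ((k j₀ : ℝ) / n j₀) := by
    intro x
    choose t ht using hσ x
    have h1 : ∑ j, ((k j : ℝ) / n j) * ((u (σ x).1 j + f (σ x).2 j : ℤ) : ℝ) =
        (∑ j, ((k j : ℝ) / n j) * ((u x.1 j + f x.2 j : ℤ) : ℝ)) + (k j₀ : ℝ) / n j₀ +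
          ((∑ j, - (k j * t j) : ℤ) : ℝ) := by
      have e1 : (k j₀ : ℝ) / n j₀ = ∑ j, ((k j : ℝ) / n j) * (if j = j₀ then 1 else 0) := by
        simp
      rw [e1, Int.cast_sum, ← Finset.sum_add_distrib, ← Finset.sum_add_distrib]
      apply Finset.sum_congr rfl
      intro j _
      have h3 := h.n_pos j
      have h0 : (n j : ℝ) ≠ 0 := by linarith
      have h4 : ((u (σ x).1 j + f (σ x).2 j : ℤ) : ℝ) =
          ((u x.1 j + f x.2 j : ℤ) : ℝ) + (if j = j₀ then 1 else 0) - n j * t j := by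
        have h5 : (u (σ x).1 j + f (σ x).2 j : ℤ) =
          (u x.1 j + f x.2 j) + (if j = j₀ then 1 else 0) - n j * t j := by
          linarith [ht j]
        rw [h5]
        push_cast
        split_ifs <;> simp
      rw [h4]
      push_cast
      field_simp
      ring
    simp only [hF]
    rw [h1, ee_add, ee_add, ee_int, mul_one]
  have hsum : ∑ x, F x = (∑ x, F x) * ee ((k j₀ : ℝ) / n j₀) := by
    conv_lhs => rw [← hbij.sum_comp F]
    rw [Finset.sum_mul]
    exact Finset.sum_congr rfl (fun x _ => hshift x)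
  have hne : ee ((k j₀ : ℝ) / n j₀) ≠ 1 := by
    intro h1
    obtain ⟨z, hz⟩ := ee_eq_one h1
    apply hj
    have h3 := h.n_pos j₀
    have h0 : (n j₀ : ℝ) ≠ 0 := by linarith
    refine ⟨z, ?_⟩
    rw [div_eq_iff h0] at hz
    have : (k j₀ : ℝ) = ((n j₀ * z : ℤ) : ℝ) := by
      rw [hz]; push_cast; ring
    exact_mod_cast this
  have h5 : (∑ x, F x) * (1 - ee ((k j₀ : ℝ) / n j₀)) = 0 := by
    rw [mul_sub, mul_one, ← hsum, sub_self]
  rcases mul_eq_zero.mp h5 with h6 | h6
  · exact h6
  · exact absurd (sub_eq_zero.mp h6).symm hne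

theorem Hyp.ft_int (h : Hyp n u f) (N : ℕ) : ∀ k : Fin m → ℤ, k ≠ 0 →
    (∑ j, (k j).natAbs) ≤ N → ft n u f (fun j => (k j : ℝ)) = 0 := by
  induction N with
  | zero =>
    intro k hk hN
    exfalso
    apply hk
    funext j
    have := Finset.sum_eq_zero_iff.mp (Nat.le_zero.mp hN) j (Finset.mem_univ j)
    simpa using this
  | succ N ih =>
    intro k hk hN
    by_cases hd : ∀ j, n j ∣ k j
    · choose k' hk' using hd
      have h1 : (fun j => (k j : ℝ)) = fun j => (n j : ℝ) * (k' j : ℝ) := by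
        funext j
        rw [hk' j]
        push_cast
        ring
      rw [h1, h.ft_rec (fun j => (k' j : ℝ))]
      have hk0 : k' ≠ 0 := by
        intro h0
        apply hk
        funext j
        rw [hk' j, h0]
        simp
      have hlt : ∑ j, (k' j).natAbs < ∑ j, (k j).natAbs := by
        obtain ⟨j₁, hj₁⟩ : ∃ j, k' j ≠ 0 := by
          by_contra hcon
          push Not at hcon
          exact hk0 (funext hcon)
        apply Finset.sum_lt_sum
        · intro j _
          rw [hk' j, Int.natAbs_mul]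
          have := h.hn j
          nlinarith [Nat.zero_le (k' j).natAbs, Int.natAbs_of_nonneg (by omega : 0 ≤ n j),
            (by omega : 1 ≤ (n j).natAbs)]
        · refine ⟨j₁, Finset.mem_univ _, ?_⟩
          rw [hk' j₁, Int.natAbs_mul]
          have := h.hn j₁
          have h7 : 1 ≤ (k' j₁).natAbs := Nat.one_le_iff_ne_zero.mpr (by simpa using hj₁)
          have h8 : 3 ≤ (n j₁).natAbs := by omega
          nlinarith
      rw [ih k' hk0 (by omega), mul_zero, smul_zero]
    · push Not at hd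
      obtain ⟨j₀, hj₀⟩ := hd
      have h1 : (fun j => (k j : ℝ)) = fun j => (n j : ℝ) * ((k j : ℝ) / n j) := by
        funext j
        have h3 := h.n_pos j
        have h0 : (n j : ℝ) ≠ 0 := by linarith
        field_simp
      rw [h1, h.ft_rec, h.sum_zero k j₀ hj₀, zero_mul, smul_zero]

end Pool.Agent.W488.Sp
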