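import Pool.Agent.W488.Sp.Code

/-!
Almost every sequence contains the synchronising pattern infinitely often; characteristic function.
-/

set_option autoImplicit false

open MeasureTheory
open scoped ENNReal

namespace Pool.Agent.W488.Sp

variable {m : ℕ} {P : Type} [Fintype P] [Nonempty P] [MeasurableSpace P]
  [DiscreteMeasurableSpace P]
variable {n : Fin m → ℤ} {u f : P → Fin m → ℤ}

theorem measurable_sh : Measurable (sh : (ℕ → P) → (ℕ → P)) := by
  rw [measurable_pi_iff]
  intro i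
  exact measurable_pi_apply (i + 1)

theorem measurable_shk (k : ℕ) : Measurable (shk k : (ℕ → P) → (ℕ → P)) := by
  rw [measurable_pi_iff]
  intro i
  exact measurable_pi_apply (2 * k + i)

theorem measurable_ww (i : ℕ) (j : Fin m) : Measurable (fun ω : ℕ → P => ww u f ω i j) := by
  unfold ww
  have h1 : Measurable (fun ω : ℕ → P => u (ω (2 * i)) j) :=
    (Measurable.of_discrete (f := fun p : P => u p j)).comp (measurable_pi_apply (2 * i))
  have h2 : Measurable (fun ω : ℕ → P => f (ω (2 * i + 1)) j) :=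
    (Measurable.of_discrete (f := fun p : P => f p j)).comp (measurable_pi_apply (2 * i + 1))
  exact h1.add h2

theorem measurableSet_pat (k : ℕ) : MeasurableSet {ω : ℕ → P | pat u f ω k} := by
  unfold pat
  have h1 : {ω : ℕ → P | (∀ j, ww u f ω k j = 1) ∧ ∀ j, ww u f ω (k + 1) j = 2} =
      (⋂ j, {ω : ℕ → P | ww u f ω k j = 1}) ∩ ⋂ j, {ω : ℕ → P | ww u f ω (k + 1) j = 2} := by
    ext ω
    simp
  rw [h1]
  exact (MeasurableSet.iInter fun j => measurable_ww k j (measurableSet_singleton 1)).inter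
    (MeasurableSet.iInter fun j => measurable_ww (k + 1) j (measurableSet_singleton 2))

/-- `sh` preserves the measure -/
theorem nu_sh {S : Set (ℕ → P)} (hS : MeasurableSet S) : nu P (sh ⁻¹' S) = nu P S := by
  rw [nu_apply (measurable_sh hS)]
  have : ∀ p : P, nu P (cns p ⁻¹' (sh ⁻¹' S)) = nu P S := by
    intro p
    rfl
  rw [Finset.sum_congr rfl (fun p _ => this p), Finset.sum_const, Finset.card_univ, nsmul_eq_mul,
    ← mul_assoc, ENNReal.inv_mul_cancel (by simp) (by simp), one_mul]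

theorem nu_letter (p : P) {S : Set (ℕ → P)} (hS : MeasurableSet S) :
    nu P ({ω | ω 0 = p} ∩ sh ⁻¹' S) = (Fintype.card P : ℝ≥0∞)⁻¹ * nu P S := by
  have h0 : MeasurableSet {ω : ℕ → P | ω 0 = p} :=
    measurable_pi_apply (X := fun _ => P) 0 (measurableSet_singleton p)
  rw [nu_apply (h0.inter (measurable_sh hS))]
  congr 1
  rw [Finset.sum_eq_single p]
  · have : cns p ⁻¹' ({ω | ω 0 = p} ∩ sh ⁻¹' S) = S := by
      ext ω
      simp
    rw [this]
  · intro q _ hq
    have : cns q ⁻¹' ({ω | ω 0 = p} ∩ sh ⁻¹' S) = ∅ := by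
      ext ω
      simp [hq]
    rw [this, measure_empty]
  · intro h
    exact absurd (Finset.mem_univ p) h

theorem Hyp.exists_w (h : Hyp n u f) (c : ℤ) (hc : 1 ≤ c ∧ c ≤ 2) :
    ∃ p q : P, ∀ j, u p j + f q j = c := by
  obtain ⟨pp, hpp, -⟩ := h.hbij (fun _ => c)
  refine ⟨pp.1, pp.2, fun j => ?_⟩
  obtain ⟨t, ht⟩ := hpp j
  have h1 := h.hrange pp.1 pp.2 j
  have h2 := h.hn j
  have h3 : t < 1 := by
    by_contra hcon
    nlinarith
  have h4 : -1 < t := by
    by_contra hcon
    nlinarith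
  have : t = 0 := by omega
  rw [this, mul_zero] at ht
  linarith

/-- no pattern at all -/
def A0 (u f : P → Fin m → ℤ) : Set (ℕ → P) := {ω | ∀ k, ¬ pat u f ω k}

theorem measurableSet_A0 : MeasurableSet (A0 u f : Set (ℕ → P)) := by
  have : (A0 u f : Set (ℕ → P)) = ⋂ k, {ω : ℕ → P | pat u f ω k}ᶜ := by
    ext ω
    simp [A0]
  rw [this]
  exact MeasurableSet.iInter fun k => (measurableSet_pat k).compl

theorem Hyp.nu_A0 (h : Hyp n u f) : nu P (A0 u f) = 0 := by
  obtain ⟨p1, q1, h1⟩ := h.exists_w 1 (by norm_num)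
  obtain ⟨p2, q2, h2⟩ := h.exists_w 2 (by norm_num)
  set S := (A0 u f : Set (ℕ → P)) with hSdef
  have hS : MeasurableSet S := measurableSet_A0
  set W3 := {ω : ℕ → P | ω 0 = q2} ∩ sh ⁻¹' S with hW3
  set W2 := {ω : ℕ → P | ω 0 = p2} ∩ sh ⁻¹' W3 with hW2
  set W1 := {ω : ℕ → P | ω 0 = q1} ∩ sh ⁻¹' W2 with hW1
  set W0 := {ω : ℕ → P | ω 0 = p1} ∩ sh ⁻¹' W1 with hW0
  have hev : ∀ p : P, MeasurableSet {ω : ℕ → P | ω 0 = p} := fun p =>
    measurable_pi_apply (X := fun _ => P) 0 (measurableSet_singleton p)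
  have m3 : MeasurableSet W3 := (hev _).inter (measurable_sh hS)
  have m2 : MeasurableSet W2 := (hev _).inter (measurable_sh m3)
  have m1 : MeasurableSet W1 := (hev _).inter (measurable_sh m2)
  have m0 : MeasurableSet W0 := (hev _).inter (measurable_sh m1)
  set c := (Fintype.card P : ℝ≥0∞)⁻¹ with hc
  have e0 : nu P W0 = c * (c * (c * (c * nu P S))) := by
    rw [hW0, nu_letter p1 m1, hW1, nu_letter q1 m2, hW2, nu_letter p2 m3, hW3, nu_letter q2 hS]
  have hc0 : c ≠ 0 := by simp [hc]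
  -- the set `sh^4 ∈ S`
  have hT : nu P (sh ⁻¹' (sh ⁻¹' (sh ⁻¹' (sh ⁻¹' S)))) = nu P S := by
    rw [nu_sh (measurable_sh (measurable_sh (measurable_sh hS))),
      nu_sh (measurable_sh (measurable_sh hS)), nu_sh (measurable_sh hS), nu_sh hS]
  have hdisj : Disjoint W0 S := by
    rw [Set.disjoint_left]
    rintro ω ⟨a1, a2, a3, a4, a5⟩ hω
    apply hω 0
    have b1 : ω 0 = p1 := a1
    have b2 : ω 1 = q1 := a2
    have b3 : ω 2 = p2 := a3
    have b4 : ω 3 = q2 := a4
    refine ⟨fun j => ?_, fun j => ?_⟩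
    · unfold ww
      simp only [mul_zero, zero_add, b1, b2]
      exact h1 j
    · unfold ww
      simp only [zero_add, mul_one, b3, b4]
      exact h2 j
  have hsub : W0 ∪ S ⊆ sh ⁻¹' (sh ⁻¹' (sh ⁻¹' (sh ⁻¹' S))) := by
    rintro ω (⟨a1, a2, a3, a4, a5⟩ | hω)
    · exact a5
    · intro k hk
      apply hω (k + 2)
      have e1 : ∀ j, ww u f (sh (sh (sh (sh ω)))) k j = ww u f ω (k + 2) j := by
        intro j
        rw [ww_sh, ww_sh]
      have e2 : ∀ j, ww u f (sh (sh (sh (sh ω)))) (k + 1) j = ww u f ω (k + 2 + 1) j := by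
        intro j
        rw [ww_sh, ww_sh]
      exact ⟨fun j => by rw [← e1]; exact hk.1 j, fun j => by rw [← e2]; exact hk.2 j⟩
  have hle : nu P W0 + nu P S ≤ nu P S := by
    rw [← measure_union hdisj hS]
    exact (measure_mono hsub).trans hT.le
  have hfin : nu P S ≠ ∞ := measure_ne_top _ _
  have hW00 : nu P W0 = 0 := by
    have : nu P W0 + nu P S ≤ 0 + nu P S := by rwa [zero_add]
    exact le_antisymm ((ENNReal.add_le_add_iff_right hfin).mp this) zero_le
  rw [e0] at hW00
  simpa [hc0] using hW00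

theorem Hyp.ae_good (h : Hyp n u f) :
    ∀ᵐ ω ∂(nu P), ∀ N, ∃ k, N ≤ k ∧ pat u f ω k := by
  rw [ae_all_iff]
  intro N
  have hmp : nu P (shk N ⁻¹' (A0 u f)) = 0 := by
    have hk : ∀ N : ℕ, nu P (shk N ⁻¹' (A0 u f)) = nu P (A0 u f) := by
      intro N
      induction N with
      | zero =>
        have : (shk 0 : (ℕ → P) → (ℕ → P)) = id := funext shk_zero
        rw [this]
        rfl
      | succ N ih =>
        have : (shk (N + 1) : (ℕ → P) → (ℕ → P)) ⁻¹' (A0 u f) =
            sh ⁻¹' (sh ⁻¹' (shk N ⁻¹' (A0 u f))) := by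
          ext ω
          simp only [Set.mem_preimage]
          have : shk (N + 1) ω = shk N (sh (sh ω)) := by
            funext i
            unfold shk sh
            congr 1
            ring
          rw [this]
        rw [this, nu_sh (measurable_sh (measurable_shk N measurableSet_A0)),
          nu_sh (measurable_shk N measurableSet_A0), ih]
    rw [hk N, h.nu_A0]
  rw [ae_iff]
  refine measure_mono_null ?_ hmp
  intro ω hω k hk
  apply hω
  refine ⟨N + k, by omega, ?_⟩
  exact ⟨fun j => by rw [← ww_shk]; exact hk.1 j, fun j => by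
    rw [show N + k + 1 = N + (k + 1) by ring, ← ww_shk]; exact hk.2 j⟩

theorem Hyp.measurable_YY (h : Hyp n u f) : Measurable (YY n u f : (ℕ → P) → (Fin m → ℝ)) := by
  rw [measurable_pi_iff]
  intro j
  apply measurable_of_tendsto_metrizable (f := fun N (ω : ℕ → P) =>
    ∑ i ∈ Finset.range N, (ww u f ω i j : ℝ) / (n j : ℝ) ^ (i + 1))
  · intro N
    apply Finset.measurable_fun_sum
    intro i _
    exact ((measurable_from_top (f := fun z : ℤ => (z : ℝ))).comp (measurable_ww i j)).div_const _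
  · rw [tendsto_pi_nhds]
    intro ω
    exact (h.summable ω j).hasSum.tendsto_sum_nat

end Pool.Agent.W488.Sp
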