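import Mathlib

/-!
The uniform Bernoulli measure on sequences over a finite alphabet.
-/

set_option autoImplicit false

open MeasureTheory
open scoped ENNReal

namespace Pool.Agent.W488.Sp

variable {P : Type} [Fintype P] [MeasurableSpace P]

/-- uniform measure -/
noncomputable def unif (P : Type) [Fintype P] [MeasurableSpace P] : Measure P :=
  (Fintype.card P : ℝ≥0∞)⁻¹ • ∑ p : P, Measure.dirac p

theorem unif_apply {S : Set P} (hS : MeasurableSet S) :
    unif P S = (Fintype.card P : ℝ≥0∞)⁻¹ * ∑ p : P, S.indicator 1 p := by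
  simp only [unif, Measure.smul_apply, Measure.coe_finsetSum, Finset.sum_apply, smul_eq_mul,
    Measure.dirac_apply' _ hS]

instance [Nonempty P] : IsProbabilityMeasure (unif P) := by
  constructor
  rw [unif_apply MeasurableSet.univ]
  simp only [Set.indicator_univ, Pi.one_apply, Finset.sum_const, Finset.card_univ, nsmul_eq_mul,
    mul_one]
  exact ENNReal.inv_mul_cancel (by simp) (by simp)

/-- the Bernoulli measure -/
noncomputable def nu (P : Type) [Fintype P] [MeasurableSpace P] [Nonempty P] :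
    Measure (ℕ → P) :=
  Measure.infinitePi (fun _ : ℕ => unif P)

instance [Nonempty P] : IsProbabilityMeasure (nu P) := by
  unfold nu
  infer_instance

/-- prepend a letter -/
def cns {P : Type} (p : P) (ω : ℕ → P) : ℕ → P
  | 0 => p
  | n + 1 => ω n

@[simp] theorem cns_zero {P : Type} (p : P) (ω : ℕ → P) : cns p ω 0 = p := rfl
@[simp] theorem cns_succ {P : Type} (p : P) (ω : ℕ → P) (n : ℕ) : cns p ω (n + 1) = ω n := rfl

theorem measurable_cns (p : P) : Measurable (cns p : (ℕ → P) → (ℕ → P)) := by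
  rw [measurable_pi_iff]
  intro n
  cases n with
  | zero => exact measurable_const
  | succ n => exact measurable_pi_apply n

/-- the set of indices `n` with `n + 1 ∈ s` -/
def pr (s : Finset ℕ) : Finset ℕ := (s.erase 0).image Nat.pred

theorem mem_pr {s : Finset ℕ} {n : ℕ} : n ∈ pr s ↔ n + 1 ∈ s := by
  unfold pr
  simp only [Finset.mem_image, Finset.mem_erase]
  constructor
  · rintro ⟨a, ⟨h1, h2⟩, rfl⟩
    rwa [show a.pred + 1 = a from Nat.succ_pred_eq_of_ne_zero h1]
  · intro h
    exact ⟨n + 1, ⟨by simp, h⟩, rfl⟩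

theorem prod_pr (s : Finset ℕ) (F : ℕ → ℝ≥0∞) :
    ∏ i ∈ s, F i = (if 0 ∈ s then F 0 else 1) * ∏ i ∈ pr s, F (i + 1) := by
  have h1 : ∏ i ∈ pr s, F (i + 1) = ∏ i ∈ s.erase 0, F i := by
    unfold pr
    rw [Finset.prod_image]
    · apply Finset.prod_congr rfl
      intro i hi
      rw [Finset.mem_erase] at hi
      rw [show i.pred + 1 = i from Nat.succ_pred_eq_of_ne_zero hi.1]
    · intro a ha b hb hab
      simp only [Finset.coe_erase, Set.mem_diff, Set.mem_singleton_iff] at ha hb
      have h2 : a.pred + 1 = b.pred + 1 := by rw [hab]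
      rwa [show a.pred + 1 = a from Nat.succ_pred_eq_of_ne_zero ha.2,
        show b.pred + 1 = b from Nat.succ_pred_eq_of_ne_zero hb.2] at h2
  rw [h1]
  by_cases h0 : 0 ∈ s
  · rw [if_pos h0, Finset.mul_prod_erase s F h0]
  · rw [if_neg h0, one_mul, Finset.erase_eq_of_notMem h0]

theorem nu_eq [Nonempty P] :
    nu P = (Fintype.card P : ℝ≥0∞)⁻¹ • ∑ p : P, (nu P).map (cns p) := by
  symm
  apply Measure.eq_infinitePi
  intro s t ht
  have hm : MeasurableSet (Set.pi (s : Set ℕ) t) := MeasurableSet.pi s.countable_toSet (fun i _ => ht i)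
  simp only [Measure.smul_apply, Measure.coe_finsetSum, Finset.sum_apply, smul_eq_mul]
  have h1 : ∀ p : P, (nu P).map (cns p) (Set.pi (s : Set ℕ) t) =
      (if 0 ∈ s then (t 0).indicator 1 p else 1) * ∏ i ∈ pr s, unif P (t (i + 1)) := by
    intro p
    rw [Measure.map_apply (measurable_cns p) hm]
    have h2 : cns p ⁻¹' (Set.pi (s : Set ℕ) t) =
        {ω | (0 ∈ s → p ∈ t 0)} ∩ Set.pi (pr s : Set ℕ) (fun i => t (i + 1)) := by
      ext ω
      simp only [Set.mem_preimage, Set.mem_pi, Finset.mem_coe, Set.mem_inter_iff, Set.mem_setOf_eq,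
        mem_pr]
      constructor
      · intro h
        exact ⟨fun h0 => h 0 h0, fun i hi => h (i + 1) hi⟩
      · rintro ⟨h3, h4⟩ i hi
        cases i with
        | zero => exact h3 hi
        | succ i => exact h4 i hi
    rw [h2]
    have h5 : nu P (Set.pi (pr s : Set ℕ) (fun i => t (i + 1))) =
        ∏ i ∈ pr s, unif P (t (i + 1)) :=
      Measure.infinitePi_pi _ (fun i _ => ht (i + 1))
    by_cases h0 : 0 ∈ s
    · by_cases hp : p ∈ t 0
      · have : {ω : ℕ → P | (0 ∈ s → p ∈ t 0)} = Set.univ := by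
          ext ω; simp [hp]
        rw [this, Set.univ_inter, h5, if_pos h0, Set.indicator_of_mem hp, Pi.one_apply, one_mul]
      · have : {ω : ℕ → P | (0 ∈ s → p ∈ t 0)} = ∅ := by
          ext ω; simp [hp, h0]
        rw [this, Set.empty_inter, measure_empty, if_pos h0, Set.indicator_of_notMem hp, zero_mul]
    · have : {ω : ℕ → P | (0 ∈ s → p ∈ t 0)} = Set.univ := by
        ext ω; simp [h0]
      rw [this, Set.univ_inter, h5, if_neg h0, one_mul]
  rw [Finset.sum_congr rfl (fun p _ => h1 p), ← Finset.sum_mul, ← mul_assoc, prod_pr s]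
  congr 1
  by_cases h0 : 0 ∈ s
  · simp only [if_pos h0]
    rw [unif_apply (ht 0)]
  · simp only [if_neg h0]
    rw [Finset.sum_const, Finset.card_univ, nsmul_eq_mul, mul_one]
    exact ENNReal.inv_mul_cancel (by simp) (by simp)

theorem nu_apply [Nonempty P] {S : Set (ℕ → P)} (hS : MeasurableSet S) :
    nu P S = (Fintype.card P : ℝ≥0∞)⁻¹ * ∑ p : P, nu P (cns p ⁻¹' S) := by
  conv_lhs => rw [nu_eq]
  simp only [Measure.smul_apply, Measure.coe_finsetSum, Finset.sum_apply, smul_eq_mul,
    Measure.map_apply (measurable_cns _) hS]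

theorem integral_nu [Nonempty P] {E : Type*} [NormedAddCommGroup E] [NormedSpace ℝ E]
    {g : (ℕ → P) → E} (hg : Integrable g (nu P)) (hgm : StronglyMeasurable g) :
    ∫ ω, g ω ∂(nu P) = (Fintype.card P : ℝ)⁻¹ • ∑ p : P, ∫ ω, g (cns p ω) ∂(nu P) := by
  have hint : Integrable g ((Fintype.card P : ℝ≥0∞)⁻¹ • ∑ p : P, (nu P).map (cns p)) := by
    rw [← nu_eq]; exact hg
  have hc : (Fintype.card P : ℝ≥0∞)⁻¹ ≠ 0 := by simp
  have hint2 : Integrable g (∑ p : P, (nu P).map (cns p)) := by
    rwa [integrable_smul_measure hc (by simp)] at hint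
  have hint3 : ∀ p ∈ (Finset.univ : Finset P), Integrable g ((nu P).map (cns p)) := by
    rwa [integrable_finsetSum_measure] at hint2
  conv_lhs => rw [nu_eq]
  rw [integral_smul_measure, integral_finsetSum_measure hint3]
  congr 1
  · simp
  · apply Finset.sum_congr rfl
    intro p _
    rw [integral_map (measurable_cns p).aemeasurable hgm.aestronglyMeasurable]

end Pool.Agent.W488.Sp
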