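import Pool.Agent.W488.Sp.Attr

/-!
The spectral property of the explicit measure, with the explicit spectrum `range fq`; the
description of Hadamard triples by a unitary matrix.
-/

set_option autoImplicit false

open MeasureTheory Matrix
open scoped ENNReal Real

namespace Pool.Agent.W488.Sp

open Pool.Agent.W754.Sp

variable {m : ℕ} {P : Type} [Fintype P] [Nonempty P] [MeasurableSpace P] [DiscreteMeasurableSpace P]
variable {n : Fin m → ℤ} {u f : P → Fin m → ℤ}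

theorem Hyp.isSpectralI (h : Hyp n u f) :
    IsSpectralI ((nu P).map (XX n u f)) (Set.range fq) := by
  have hX := h.measurable_XX
  have : IsProbabilityMeasure ((nu P).map (XX n u f)) :=
    Measure.isProbabilityMeasure_map hX.aemeasurable
  refine ⟨?_, ?_⟩
  · rintro _ ⟨k, rfl⟩ _ ⟨k', rfl⟩
    refine ⟨fun hkk => ?_, fun hkk => ?_⟩
    · rw [hkk]
      simp
    · have hk : k - k' ≠ 0 := by
        intro h0
        exact hkk (congrArg fq (sub_eq_zero.mp h0))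
      have hmeas : Measurable (fun x : Fin (m + m) → ℝ =>
          Complex.exp (2 * π * Complex.I * ((∑ i, (fq k i - fq k' i) * x i : ℝ) : ℂ))) := by
        fun_prop
      rw [integral_map hX.aemeasurable hmeas.aestronglyMeasurable]
      simp only [sum_fq]
      exact h.ft_int _ (k - k') hk le_rfl
  · intro g hg horth
    have hg2 : MemLp (fun ω => g (XX n u f ω)) 2 (nu P) := by
      exact (memLp_map_measure_iff hg.1 hX.aemeasurable).mp hg
    have h0 := h.complete (fun ω => g (XX n u f ω)) hg2 (by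
      intro k
      have h1 := horth (fq k) ⟨k, rfl⟩
      have hmeas : Measurable (fun x : Fin (m + m) → ℝ =>
          Complex.exp (-(2 * π * Complex.I * ((∑ i, fq k i * x i : ℝ) : ℂ)))) := by
        fun_prop
      have hms : AEStronglyMeasurable (fun x : Fin (m + m) → ℝ => g x *
          Complex.exp (-(2 * π * Complex.I * ((∑ i, fq k i * x i : ℝ) : ℂ))))
          ((nu P).map (XX n u f)) := hg.1.mul hmeas.aestronglyMeasurable
      rw [integral_map hX.aemeasurable hms] at h1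
      simp only [sum_fq1] at h1
      rw [← h1]
      congr 1
      funext ω
      unfold ee
      congr 2
      push_cast
      ring)
    -- transfer
    obtain ⟨g', hg'm, hgg'⟩ := hg.1
    have h2 : ∀ᵐ ω ∂(nu P), g (XX n u f ω) = g' (XX n u f ω) :=
      ae_of_ae_map hX.aemeasurable hgg'
    have h3 : ∀ᵐ ω ∂(nu P), g' (XX n u f ω) = 0 := by
      filter_upwards [h0, h2] with ω hω1 hω2
      rw [← hω2]
      exact hω1
    have h4 : ∀ᵐ x ∂((nu P).map (XX n u f)), g' x = 0 :=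
      (ae_map_iff (p := fun x => g' x = 0) hX.aemeasurable
        (hg'm.measurable (measurableSet_singleton 0))).mpr h3
    filter_upwards [hgg', h4] with x hx1 hx2
    rw [hx1, hx2]
    rfl

/-- everything about the measure in general form -/
theorem Hyp.full (h : Hyp n u f) (huinj : Function.Injective u)
    (hexp : ∀ z : ℂ, ((RR n).map (Int.cast : ℤ → ℂ)).charpoly.IsRoot z → 1 < ‖z‖) :
    ∃ (τ : (Fin (m + m) → ℤ) → (Fin (m + m) → ℝ) → (Fin (m + m) → ℝ))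
      (μ : Measure (Fin (m + m) → ℝ)) (T : Set (Fin (m + m) → ℝ)),
      (∀ b x, τ b x = ((RR n).map (Int.cast : ℤ → ℝ))⁻¹ *ᵥ (x + fun i => (b i : ℝ))) ∧
      IsProbabilityMeasure μ ∧
      μ = ((BB u f).card : ℝ≥0∞)⁻¹ • ∑ b ∈ BB u f, μ.map (τ b) ∧
      IsCompact T ∧ T.Nonempty ∧ T = ⋃ b ∈ BB u f, τ b '' T ∧
      (∃ Λ : Set (Fin (m + m) → ℝ), Λ.Countable ∧
        ∃ e : Λ → Lp ℂ 2 μ,
          (∀ l : Λ, (e l : (Fin (m + m) → ℝ) → ℂ) =ᵐ[μ]
            fun x => Complex.exp (2 * π * Complex.I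
              * ((∑ i, (l : Fin (m + m) → ℝ) i * x i : ℝ) : ℂ))) ∧
          Orthonormal ℂ e ∧
          (Submodule.span ℂ (Set.range e)).topologicalClosure = ⊤) ∧
      (∀ b ∈ BB u f, ∀ b' ∈ BB u f, b ≠ b' → μ (τ b '' T ∩ τ b' '' T) = 0) := by
  obtain ⟨hTc, hTn, hTe⟩ := h.attractor
  have hX := h.measurable_XX
  have hprob : IsProbabilityMeasure ((nu P).map (XX n u f)) :=
    Measure.isProbabilityMeasure_map hX.aemeasurable
  have hself : (nu P).map (XX n u f) =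
      ((BB u f).card : ℝ≥0∞)⁻¹ • ∑ b ∈ BB u f, ((nu P).map (XX n u f)).map (tau (RR n) b) :=
    h.selfaffine huinj
  have hspec := h.isSpectralI
  obtain ⟨e, he1, he2, he3⟩ := exists_onb _ _ hspec
  refine ⟨tau (RR n), (nu P).map (XX n u f), Set.range (XX n u f), fun b x => rfl, hprob, hself,
    hTc, hTn, hTe, ⟨Set.range fq, Set.countable_range _, e, he1, he2, he3⟩, ?_⟩
  have hself2 : (nu P).map (XX n u f) =
      ∑ b ∈ BB u f, (((BB u f).card : ENNReal)⁻¹) • ((nu P).map (XX n u f)).map (tau (RR n) b) := by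
    conv_lhs => rw [hself]
    rw [Finset.smul_sum]
  have hexp' : ∀ z : ℂ, ((RR n).map (Int.castRingHom ℂ)).charpoly.IsRoot z → 1 < ‖z‖ := hexp
  have htau : ∀ b x, tau (RR n) b x =
      ((RR n).map (Int.castRingHom ℝ))⁻¹ *ᵥ (x + fun i => (b i : ℝ)) := fun b x => rfl
  exact noOverlap_of_spectral (m + m) (RR n) (BB u f) (tau (RR n)) _
    hexp' htau hprob hself2 ⟨_, e, he1, he2, he3⟩ _ hTc hTn hTe

/-- everything about the measure in general form, spectrality in terms of integrals -/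
theorem Hyp.full2 (h : Hyp n u f) (huinj : Function.Injective u)
    (hexp : ∀ z : ℂ, ((RR n).map (Int.cast : ℤ → ℂ)).charpoly.IsRoot z → 1 < ‖z‖) :
    ∃ (τ : (Fin (m + m) → ℤ) → (Fin (m + m) → ℝ) → (Fin (m + m) → ℝ))
      (μ : Measure (Fin (m + m) → ℝ)) (T : Set (Fin (m + m) → ℝ)),
      (∀ b x, τ b x = ((RR n).map (Int.cast : ℤ → ℝ))⁻¹ *ᵥ (x + fun i => (b i : ℝ))) ∧
      IsProbabilityMeasure μ ∧
      μ = ((BB u f).card : ℝ≥0∞)⁻¹ • ∑ b ∈ BB u f, μ.map (τ b) ∧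
      IsCompact T ∧ T.Nonempty ∧ T = ⋃ b ∈ BB u f, τ b '' T ∧
      (∃ Λ : Set (Fin (m + m) → ℝ), Λ.Countable ∧ IsSpectralI μ Λ) ∧
      (∀ b ∈ BB u f, ∀ b' ∈ BB u f, b ≠ b' → μ (τ b '' T ∩ τ b' '' T) = 0) := by
  obtain ⟨hTc, hTn, hTe⟩ := h.attractor
  have hX := h.measurable_XX
  have hprob : IsProbabilityMeasure ((nu P).map (XX n u f)) :=
    Measure.isProbabilityMeasure_map hX.aemeasurable
  have hself : (nu P).map (XX n u f) =
      ((BB u f).card : ℝ≥0∞)⁻¹ • ∑ b ∈ BB u f, ((nu P).map (XX n u f)).map (tau (RR n) b) :=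
    h.selfaffine huinj
  have hspec := h.isSpectralI
  obtain ⟨e, he1, he2, he3⟩ := exists_onb _ _ hspec
  refine ⟨tau (RR n), (nu P).map (XX n u f), Set.range (XX n u f), fun b x => rfl, hprob, hself,
    hTc, hTn, hTe, ⟨Set.range fq, Set.countable_range _, hspec⟩, ?_⟩
  have hself2 : (nu P).map (XX n u f) =
      ∑ b ∈ BB u f, (((BB u f).card : ENNReal)⁻¹) • ((nu P).map (XX n u f)).map (tau (RR n) b) := by
    conv_lhs => rw [hself]
    rw [Finset.smul_sum]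
  have hexp' : ∀ z : ℂ, ((RR n).map (Int.castRingHom ℂ)).charpoly.IsRoot z → 1 < ‖z‖ := hexp
  have htau : ∀ b x, tau (RR n) b x =
      ((RR n).map (Int.castRingHom ℝ))⁻¹ *ᵥ (x + fun i => (b i : ℝ)) := fun b x => rfl
  exact noOverlap_of_spectral (m + m) (RR n) (BB u f) (tau (RR n)) _
    hexp' htau hprob hself2 ⟨_, e, he1, he2, he3⟩ _ hTc hTn hTe

/-- rows of a unitary matrix `N^{-1/2} (e(⟨R⁻¹ b, l⟩))` are orthogonal -/
theorem rows_orthogonal {d : ℕ} (R : Matrix (Fin d) (Fin d) ℤ) (B L : Finset (Fin d → ℤ))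
    (hB : 0 < B.card)
    (H : Matrix L B ℂ) (hH : H * Hᴴ = 1)
    (hHe : ∀ l b, H l b = (Real.sqrt B.card : ℂ)⁻¹ * Complex.exp (2 * π * Complex.I *
            ((∑ i, ((R.map (Int.cast : ℤ → ℝ))⁻¹ *ᵥ (fun j => ((b : Fin d → ℤ) j : ℝ))) i *
              ((l : Fin d → ℤ) i : ℝ) : ℝ) : ℂ))) :
    ∀ l ∈ L, ∀ l' ∈ L, l ≠ l' → ∑ b ∈ B, Complex.exp (2 * π * Complex.I *
     ((∑ i, ((R.map (Int.cast : ℤ → ℝ))⁻¹ *ᵥ (fun j => (b j : ℝ))) i *
       ((l i : ℝ) - (l' i : ℝ)) : ℝ) : ℂ)) = 0 := by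
  intro l hl l' hl' hne
  have h1 : (H * Hᴴ) ⟨l, hl⟩ ⟨l', hl'⟩ = 0 := by
    rw [hH, Matrix.one_apply_ne]
    intro h
    exact hne (congrArg Subtype.val h)
  rw [Matrix.mul_apply] at h1
  have hs : (Real.sqrt B.card : ℂ)⁻¹ * (Real.sqrt B.card : ℂ)⁻¹ ≠ 0 := by
    have : (Real.sqrt B.card : ℂ) ≠ 0 := by
      rw [Ne, Complex.ofReal_eq_zero]
      exact (Real.sqrt_pos.mpr (by exact_mod_cast hB)).ne'
    exact mul_ne_zero (inv_ne_zero this) (inv_ne_zero this)
  have h2 : ∑ b : B, H ⟨l, hl⟩ b * Hᴴ b ⟨l', hl'⟩ =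
      ((Real.sqrt B.card : ℂ)⁻¹ * (Real.sqrt B.card : ℂ)⁻¹) *
        ∑ b : B, Complex.exp (2 * π * Complex.I *
          ((∑ i, ((R.map (Int.cast : ℤ → ℝ))⁻¹ *ᵥ (fun j => ((b : Fin d → ℤ) j : ℝ))) i *
            ((l i : ℝ) - (l' i : ℝ)) : ℝ) : ℂ)) := by
    rw [Finset.mul_sum]
    apply Finset.sum_congr rfl
    intro b _
    rw [Matrix.conjTranspose_apply, hHe, hHe, star_mul', ← Complex.ofReal_inv]
    rw [show star (((Real.sqrt B.card)⁻¹ : ℝ) : ℂ) = (((Real.sqrt B.card)⁻¹ : ℝ) : ℂ) from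
      Complex.conj_ofReal _]
    have hc : star (Complex.exp (2 * π * Complex.I *
        ((∑ i, ((R.map (Int.cast : ℤ → ℝ))⁻¹ *ᵥ (fun j => ((b : Fin d → ℤ) j : ℝ))) i *
          (l' i : ℝ) : ℝ) : ℂ))) = Complex.exp (-(2 * π * Complex.I *
        ((∑ i, ((R.map (Int.cast : ℤ → ℝ))⁻¹ *ᵥ (fun j => ((b : Fin d → ℤ) j : ℝ))) i *
          (l' i : ℝ) : ℝ) : ℂ))) := by
      rw [show (star : ℂ → ℂ) = (starRingEnd ℂ) from rfl, ← Complex.exp_conj]
      congr 1
      simp only [map_mul, Complex.conj_I, Complex.conj_ofReal, map_ofNat]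
      ring
    rw [hc]
    have he : Complex.exp (2 * π * Complex.I *
          ((∑ i, ((R.map (Int.cast : ℤ → ℝ))⁻¹ *ᵥ (fun j => ((b : Fin d → ℤ) j : ℝ))) i *
            ((l i : ℝ) - (l' i : ℝ)) : ℝ) : ℂ)) =
        Complex.exp (2 * π * Complex.I *
          ((∑ i, ((R.map (Int.cast : ℤ → ℝ))⁻¹ *ᵥ (fun j => ((b : Fin d → ℤ) j : ℝ))) i *
            (l i : ℝ) : ℝ) : ℂ)) * Complex.exp (-(2 * π * Complex.I *
        ((∑ i, ((R.map (Int.cast : ℤ → ℝ))⁻¹ *ᵥ (fun j => ((b : Fin d → ℤ) j : ℝ))) i *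
          (l' i : ℝ) : ℝ) : ℂ))) := by
      rw [← Complex.exp_add]
      congr 1
      simp only [mul_sub, Finset.sum_sub_distrib]
      push_cast
      ring
    rw [he]
    ring
  rw [h2] at h1
  have h3 := (mul_eq_zero.mp h1).resolve_left hs
  rw [← Finset.sum_coe_sort]
  exact h3

end Pool.Agent.W488.Sp
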